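import Mathlib
import Pool.Agent.R975.King
import Pool.Agent.Y560.BE.Erg
set_option autoImplicit false
set_option linter.unusedSectionVars false

/-!
# One-player percolation games with i.i.d. payoffs have a limit value

No orientation assumption. The proof: for a word in the actions the final position only depends on
the numbers of occurrences of the actions. For a vector `w` of positive integers, the best total
payoffs of the words with `n w_i` occurrences of the action `i` form a superadditive process for the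
shift by the displacement of `w`, and Kingman's theorem applies if this displacement is not `0`.
Every word of length `N` can be completed to a word with `n w_i` occurrences of the action `i`, for
one of finitely many vectors `w` with nonzero displacement and a total length at most `(1 + δ) N`.
-/

namespace Pool.Agent.Results.MP_5b044e_pr.LimitValue

open MeasureTheory ProbabilityTheory Filter Topology

/-! ### Definitions -/

/-- The state after `m` stages, if the action `a k` is played at the stage `k` (`k = 0, 1, …`). -/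
def state {d : ℕ} {I : Type} (q : I → Fin d → ℤ) (z : Fin d → ℤ) (a : ℕ → I) (m : ℕ) : Fin d → ℤ :=
  z + ∑ k ∈ Finset.range m, q (a k)

/-- The average payoff of the first `n` stages. -/
noncomputable def avg {d : ℕ} {I : Type} (g : (Fin d → ℤ) → I → ℝ) (q : I → Fin d → ℤ)
    (z : Fin d → ℤ) (n : ℕ) (a : ℕ → I) : ℝ :=
  (∑ m ∈ Finset.range n, g (state q z a m) (a m)) / n

/-- The `n`-stage value of the game of a maximiser. -/
noncomputable def vmax {d : ℕ} {I : Type} (g : (Fin d → ℤ) → I → ℝ) (q : I → Fin d → ℤ)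
    (n : ℕ) (z : Fin d → ℤ) : ℝ := ⨆ a : ℕ → I, avg g q z n a

/-- The `n`-stage value of the game of a minimiser. -/
noncomputable def vmin {d : ℕ} {I : Type} (g : (Fin d → ℤ) → I → ℝ) (q : I → Fin d → ℤ)
    (n : ℕ) (z : Fin d → ℤ) : ℝ := ⨅ a : ℕ → I, avg g q z n a

/-! ### Words -/

section words

variable {d : ℕ} {I : Type} (q : I → Fin d → ℤ)

/-- total payoff of a word -/
def tot (g : (Fin d → ℤ) → I → ℝ) : (Fin d → ℤ) → List I → ℝ
  | _, [] => 0
  | z, i :: l => g z i + tot g (z + q i) l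

/-- displacement of a word -/
def disp (l : List I) : Fin d → ℤ := (l.map q).sum

/-- translation of the payoffs -/
def tr (x : Fin d → ℤ) (g : (Fin d → ℤ) → I → ℝ) : (Fin d → ℤ) → I → ℝ := fun z => g (z + x)

lemma tot_tr (g : (Fin d → ℤ) → I → ℝ) (x z : Fin d → ℤ) (l : List I) :
    tot q (tr x g) z l = tot q g (z + x) l := by
  induction l generalizing z with
  | nil => rfl
  | cons i l ih =>
    unfold tot
    rw [ih]
    unfold tr
    rw [show z + q i + x = z + x + q i by abel]

lemma tot_append (g : (Fin d → ℤ) → I → ℝ) (z : Fin d → ℤ) (l l' : List I) :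
    tot q g z (l ++ l') = tot q g z l + tot q g (z + disp q l) l' := by
  induction l generalizing z with
  | nil => simp [tot, disp]
  | cons i l ih =>
    have : z + disp q (i :: l) = z + q i + disp q l := by
      simp [disp, add_assoc]
    rw [this]
    show g z i + tot q g (z + q i) (l ++ l') = (g z i + tot q g (z + q i) l) +
      tot q g (z + q i + disp q l) l'
    rw [ih]
    ring

lemma tot_bd {g : (Fin d → ℤ) → I → ℝ} {B : ℝ} (h0 : ∀ z i, 0 ≤ g z i) (hB : ∀ z i, g z i ≤ B)
    (z : Fin d → ℤ) (l : List I) : 0 ≤ tot q g z l ∧ tot q g z l ≤ B * l.length := by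
  induction l generalizing z with
  | nil => simp [tot]
  | cons i l ih =>
    have h1 := ih (z + q i)
    have h2 := h0 z i
    have h3 := hB z i
    unfold tot
    rw [List.length_cons]
    push_cast
    constructor
    · linarith [h1.1]
    · linarith [h1.2]

variable [Fintype I] [DecidableEq I]

/-- displacement of a vector of counts -/
def dw (w : I → ℕ) : Fin d → ℤ := ∑ i, w i • q i

lemma disp_eq (l : List I) : disp q l = dw q (fun i => l.count i) := by
  unfold disp dw
  induction l with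
  | nil => simp
  | cons j l ih =>
    rw [List.map_cons, List.sum_cons, ih]
    have : ∀ i, (List.count i (j :: l)) • q i = l.count i • q i + (if j = i then q i else 0) := by
      intro i
      rw [List.count_cons]
      by_cases h : j = i
      · simp [h, add_smul]
      · simp [h]
    simp_rw [this]
    rw [Finset.sum_add_distrib, Finset.sum_ite_eq Finset.univ j, if_pos (Finset.mem_univ _), add_comm]

lemma dw_smul (n : ℕ) (w : I → ℕ) : dw q (fun i => n * w i) = n • dw q w := by
  unfold dw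
  rw [Finset.smul_sum]
  refine Finset.sum_congr rfl fun i _ => ?_
  rw [mul_smul]

lemma length_eq (l : List I) : l.length = ∑ i, l.count i := by
  induction l with
  | nil => simp
  | cons j l ih =>
    rw [List.length_cons, ih]
    have : ∀ i, List.count i (j :: l) = l.count i + (if j = i then 1 else 0) := by
      intro i
      rw [List.count_cons]
      by_cases h : j = i
      · simp [h]
      · simp [h]
    simp_rw [this]
    rw [Finset.sum_add_distrib, Finset.sum_ite_eq Finset.univ j, if_pos (Finset.mem_univ _)]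

/-- words with `n w_i` occurrences of `i` -/
def Wd (w : I → ℕ) (n : ℕ) : Type := {l : List I // ∀ i, l.count i = n * w i}

instance [Countable I] (w : I → ℕ) (n : ℕ) : Countable (Wd w n) := by
  unfold Wd; infer_instance

/-- a word with given counts -/
noncomputable def mk (r : I → ℕ) : List I := Finset.univ.toList.flatMap fun i => List.replicate (r i) i

lemma count_mk (r : I → ℕ) (i : I) : (mk r).count i = r i := by
  unfold mk
  rw [List.count_flatMap]
  have : (List.map (List.count i ∘ fun i => List.replicate (r i) i) Finset.univ.toList).sum =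
      ∑ j : I, if j = i then r j else 0 := by
    rw [Finset.sum_map_toList]
    refine Finset.sum_congr rfl fun j _ => ?_
    simp only [Function.comp]
    rw [List.count_replicate]
    simp
  rw [this]
  simp

instance (w : I → ℕ) (n : ℕ) : Nonempty (Wd w n) := ⟨⟨mk fun i => n * w i, fun i => count_mk _ i⟩⟩

/-- best total payoff of the words with `n w_i` occurrences of `i`, from the origin -/
noncomputable def LL (w : I → ℕ) (n : ℕ) (g : (Fin d → ℤ) → I → ℝ) : ℝ :=
  ⨆ l : Wd w n, tot q g 0 l.1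

lemma LL_bdd {g : (Fin d → ℤ) → I → ℝ} {B : ℝ} (h0 : ∀ z i, 0 ≤ g z i) (hB : ∀ z i, g z i ≤ B)
    (w : I → ℕ) (n : ℕ) (l : Wd w n) : tot q g 0 l.1 ≤ B * (∑ i, w i) * n := by
  refine (tot_bd q h0 hB 0 l.1).2.trans (le_of_eq ?_)
  rw [length_eq]
  have : ∀ i, l.1.count i = n * w i := l.2
  simp_rw [this, ← Finset.mul_sum]
  push_cast
  ring

lemma LL_bddAbove {g : (Fin d → ℤ) → I → ℝ} {B : ℝ} (h0 : ∀ z i, 0 ≤ g z i) (hB : ∀ z i, g z i ≤ B)
    (w : I → ℕ) (n : ℕ) : BddAbove (Set.range fun l : Wd w n => tot q g 0 l.1) :=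
  ⟨B * (∑ i, w i) * n, by rintro _ ⟨l, rfl⟩; exact LL_bdd q h0 hB w n l⟩

lemma LL_super {g : (Fin d → ℤ) → I → ℝ} {B : ℝ} (h0 : ∀ z i, 0 ≤ g z i) (hB : ∀ z i, g z i ≤ B)
    (w : I → ℕ) (k l : ℕ) : LL q w k g + LL q w l (tr (k • dw q w) g) ≤ LL q w (k + l) g := by
  have h1 : LL q w k g ≤ LL q w (k + l) g - LL q w l (tr (k • dw q w) g) := by
    refine ciSup_le fun u => ?_
    have h2 : LL q w l (tr (k • dw q w) g) ≤ LL q w (k + l) g - tot q g 0 u.1 := by
      refine ciSup_le fun v => ?_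
      have h3 : tot q g 0 (u.1 ++ v.1) ≤ LL q w (k + l) g := by
        have : ∀ i, (u.1 ++ v.1).count i = (k + l) * w i := by
          intro i
          rw [List.count_append, u.2 i, v.2 i]
          ring
        exact le_ciSup (LL_bddAbove q h0 hB w (k + l)) (⟨u.1 ++ v.1, this⟩ : Wd w (k + l))
      rw [tot_append] at h3
      have h4 : disp q u.1 = k • dw q w := by
        rw [disp_eq, ← dw_smul]
        congr 1
        funext i
        exact u.2 i
      rw [tot_tr]
      rw [h4] at h3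
      linarith
    linarith
  linarith

/-- best total payoff of the words of length `n` -/
noncomputable def VV (n : ℕ) (z : Fin d → ℤ) (g : (Fin d → ℤ) → I → ℝ) : ℝ :=
  ⨆ l : {l : List I // l.length = n}, tot q g z l.1

lemma VV_bddAbove {g : (Fin d → ℤ) → I → ℝ} {B : ℝ} (h0 : ∀ z i, 0 ≤ g z i) (hB : ∀ z i, g z i ≤ B)
    (n : ℕ) (z : Fin d → ℤ) :
    BddAbove (Set.range fun l : {l : List I // l.length = n} => tot q g z l.1) :=
  ⟨B * n, by rintro _ ⟨l, rfl⟩; have := (tot_bd q h0 hB z l.1).2; rwa [l.2] at this⟩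

lemma LL_le_VV {g : (Fin d → ℤ) → I → ℝ} {B : ℝ} (h0 : ∀ z i, 0 ≤ g z i) (hB : ∀ z i, g z i ≤ B)
    [Nonempty I] (w : I → ℕ) (N n : ℕ) (h : n * ∑ i, w i ≤ N) : LL q w n g ≤ VV q N 0 g := by
  refine ciSup_le fun l => ?_
  obtain ⟨i0⟩ := ‹Nonempty I›
  have hl : l.1.length = n * ∑ i, w i := by
    rw [length_eq, Finset.mul_sum]
    exact Finset.sum_congr rfl fun i _ => l.2 i
  have h1 : (l.1 ++ List.replicate (N - n * ∑ i, w i) i0).length = N := by
    rw [List.length_append, hl, List.length_replicate]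
    omega
  have h2 := le_ciSup (VV_bddAbove q h0 hB N 0) (⟨_, h1⟩ : {l : List I // l.length = N})
  simp only at h2
  rw [tot_append] at h2
  have h3 := (tot_bd q h0 hB (0 + disp q l.1) (List.replicate (N - n * ∑ i, w i) i0)).1
  unfold VV
  linarith

/-- the finite set of vectors used for the upper bound -/
def good (K : ℕ) (w : I → ℕ) : Prop :=
  (∀ i, 1 ≤ w i) ∧ dw q w ≠ 0 ∧ ∑ i, w i ≤ K + Fintype.card I + 1

lemma good_finite (K : ℕ) : {w : I → ℕ | good q K w}.Finite := by
  refine Set.Finite.subset (Set.Finite.pi' fun _ : I => Set.finite_Iic (K + Fintype.card I + 1)) ?_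
  intro w hw i
  have h1 : w i ≤ ∑ j, w j := Finset.single_le_sum (f := w) (fun j _ => Nat.zero_le _) (Finset.mem_univ i)
  exact h1.trans hw.2.2

/-- Every word of length `N` is a beginning of a word with counts `n w`. -/
lemma complete (hq : ∃ i, q i ≠ 0) (K N : ℕ) (hK : 1 ≤ K) (hN : 1 ≤ N) (l : List I)
    (hl : l.length = N) : ∃ w, good q K w ∧ ∀ i, l.count i ≤ (N / K + 1) * w i := by
  classical
  obtain ⟨i0, hi0⟩ := hq
  set w0 : I → ℕ := fun i => K * l.count i / N + 1 with hw0
  have hsum0 : ∑ i, w0 i ≤ K + Fintype.card I := by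
    rw [hw0, Finset.sum_add_distrib]
    have h1 : ∑ i, K * l.count i / N ≤ K := by
      have h2 : (∑ i, K * l.count i / N) * N ≤ K * N := by
        rw [Finset.sum_mul]
        calc ∑ i, K * l.count i / N * N ≤ ∑ i, K * l.count i :=
              Finset.sum_le_sum fun i _ => Nat.div_mul_le_self _ _
          _ = K * N := by rw [← Finset.mul_sum, ← length_eq, hl]
      exact Nat.le_of_mul_le_mul_right h2 hN
    simpa using h1
  have hc : ∀ i, l.count i ≤ (N / K + 1) * w0 i := by
    intro i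
    have h1 : K * l.count i < N * w0 i := by
      have := Nat.lt_mul_div_succ (K * l.count i) hN
      simpa [hw0] using this
    have h2 : N < K * (N / K + 1) := Nat.lt_mul_div_succ N hK
    have h3 : K * l.count i < K * ((N / K + 1) * w0 i) := by
      calc K * l.count i < N * w0 i := h1
        _ ≤ K * (N / K + 1) * w0 i := Nat.mul_le_mul_right _ h2.le
        _ = K * ((N / K + 1) * w0 i) := by ring
    exact (Nat.lt_of_mul_lt_mul_left h3).le
  by_cases hd : dw q w0 = 0
  · refine ⟨fun i => w0 i + if i = i0 then 1 else 0, ⟨?_, ?_, ?_⟩, ?_⟩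
    · intro i
      have : 1 ≤ w0 i := Nat.le_add_left 1 _
      exact this.trans (Nat.le_add_right _ _)
    · have : dw q (fun i => w0 i + if i = i0 then 1 else 0) = dw q w0 + q i0 := by
        unfold dw
        simp_rw [add_smul]
        rw [Finset.sum_add_distrib]
        congr 1
        rw [Finset.sum_eq_single i0]
        · simp
        · intro j _ hj; simp [hj]
        · simp
      rw [this, hd, zero_add]
      exact hi0
    · rw [Finset.sum_add_distrib]
      simp
      omega
    · intro i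
      exact (hc i).trans (Nat.mul_le_mul_left _ (Nat.le_add_right _ _))
  · exact ⟨w0, ⟨fun i => Nat.le_add_left 1 _, hd, by omega⟩, hc⟩

lemma VV_upper {g : (Fin d → ℤ) → I → ℝ} {B : ℝ} (h0 : ∀ z i, 0 ≤ g z i) (hB : ∀ z i, g z i ≤ B)
    [Nonempty I] (hq : ∃ i, q i ≠ 0) (K N : ℕ) (hK : 1 ≤ K) (hN : 1 ≤ N) (c : ℝ)
    (hc : ∀ w, good q K w → LL q w (N / K + 1) g ≤ c) : VV q N 0 g ≤ c := by
  have : Nonempty {l : List I // l.length = N} :=
    ⟨⟨List.replicate N (Classical.arbitrary I), by simp⟩⟩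
  refine ciSup_le fun l => ?_
  obtain ⟨w, hw, hcount⟩ := complete q hq K N hK hN l.1 l.2
  refine le_trans ?_ (hc w hw)
  set r : List I := mk fun i => (N / K + 1) * w i - l.1.count i with hr
  have h1 : ∀ i, (l.1 ++ r).count i = (N / K + 1) * w i := by
    intro i
    rw [List.count_append, hr, count_mk]
    have := hcount i
    omega
  have h2 := le_ciSup (LL_bddAbove q h0 hB w (N / K + 1)) (⟨_, h1⟩ : Wd w (N / K + 1))
  simp only at h2
  rw [tot_append] at h2
  have h3 := (tot_bd q h0 hB (0 + disp q l.1) r).1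
  unfold LL
  linarith

/-- The deterministic part: if the averages converge along all the count vectors, then the value
converges. -/
lemma VV_tendsto {g : (Fin d → ℤ) → I → ℝ} {B : ℝ} (h0 : ∀ z i, 0 ≤ g z i) (hB : ∀ z i, g z i ≤ B)
    [Nonempty I] (hq : ∃ i, q i ≠ 0) (γ : (I → ℕ) → ℝ)
    (hγ : ∀ w, dw q w ≠ 0 → Tendsto (fun n : ℕ => LL q w n g / n) atTop (𝓝 (γ w))) :
    Tendsto (fun n : ℕ => VV q n 0 g / n) atTop
      (𝓝 (sSup ((fun w : I → ℕ => γ w / (∑ i, w i : ℕ)) '' {w | (∀ i, 1 ≤ w i) ∧ dw q w ≠ 0}))) := by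
  set D : Set (I → ℕ) := {w | (∀ i, 1 ≤ w i) ∧ dw q w ≠ 0} with hD
  set Γ : ℝ := sSup ((fun w : I → ℕ => γ w / (∑ i, w i : ℕ)) '' D) with hΓ
  obtain ⟨i1⟩ := ‹Nonempty I›
  have hs : ∀ w : I → ℕ, (∀ i, 1 ≤ w i) → 1 ≤ ∑ i, w i := by
    intro w hw
    exact (hw i1).trans (Finset.single_le_sum (f := w) (fun j _ => Nat.zero_le _) (Finset.mem_univ i1))
  have hγB : ∀ w, dw q w ≠ 0 → γ w ≤ B * (∑ i, w i : ℕ) := by
    intro w hw
    refine le_of_tendsto (hγ w hw) ?_
    filter_upwards [eventually_ge_atTop 1] with n hn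
    have hn' : (0 : ℝ) < n := by exact_mod_cast hn
    rw [div_le_iff₀ hn']
    refine ciSup_le fun l => ?_
    have h := LL_bdd q h0 hB w n l
    push_cast at h ⊢
    exact h
  have hbdd : BddAbove ((fun w : I → ℕ => γ w / (∑ i, w i : ℕ)) '' D) := by
    refine ⟨B, ?_⟩
    rintro _ ⟨w, hw, rfl⟩
    have h1 : (0 : ℝ) < (∑ i, w i : ℕ) := by exact_mod_cast hs w hw.1
    simp only
    rw [div_le_iff₀ h1]
    exact hγB w hw.2
  have hΓw : ∀ w ∈ D, γ w ≤ Γ * (∑ i, w i : ℕ) := by
    intro w hw
    have h1 : (0 : ℝ) < (∑ i, w i : ℕ) := by exact_mod_cast hs w hw.1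
    have h2 : γ w / (∑ i, w i : ℕ) ≤ Γ := le_csSup hbdd ⟨w, hw, rfl⟩
    rwa [div_le_iff₀ h1] at h2
  have hγ0 : ∀ w, dw q w ≠ 0 → 0 ≤ γ w := by
    intro w hw
    refine ge_of_tendsto' (hγ w hw) fun n => ?_
    apply div_nonneg _ (Nat.cast_nonneg n)
    exact Real.iSup_nonneg fun l => (tot_bd q h0 hB 0 l.1).1
  -- `D` is not empty
  have hDne : D.Nonempty := by
    obtain ⟨w, hw, _⟩ := complete q hq 1 1 le_rfl le_rfl [i1] rfl
    exact ⟨w, hw.1, hw.2.1⟩
  have hΓ0 : 0 ≤ Γ := by
    obtain ⟨w, hw⟩ := hDne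
    have h1 := hΓw w hw
    have h2 := hγ0 w hw.2
    have h3 : (0 : ℝ) < (∑ i, w i : ℕ) := by exact_mod_cast hs w hw.1
    by_contra h
    push Not at h
    nlinarith
  rw [Metric.tendsto_atTop]
  intro ε hε
  -- lower bound
  obtain ⟨_, ⟨w, hw, rfl⟩, hwε⟩ := exists_lt_of_lt_csSup (hDne.image _) (show Γ - ε < Γ by linarith)
  simp only at hwε
  have hlow : ∀ᶠ N : ℕ in atTop, Γ - ε < VV q N 0 g / N := by
    set sw : ℕ := ∑ i, w i with hsw
    have hsw1 : 1 ≤ sw := hs w hw.1
    have ht1 : Tendsto (fun N : ℕ => N / sw) atTop atTop := Nat.tendsto_div_const_atTop (by omega)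
    have ht2 : Tendsto (fun N : ℕ => LL q w (N / sw) g / (N / sw : ℕ)) atTop (𝓝 (γ w)) :=
      (hγ w hw.2).comp ht1
    have hswR : (0 : ℝ) < sw := by exact_mod_cast hsw1
    have ht3 : Tendsto (fun N : ℕ => ((N / sw : ℕ) : ℝ) / N) atTop (𝓝 (1 / sw)) := by
      have h1 : Tendsto (fun N : ℕ => 1 / (sw : ℝ) - 1 / N) atTop (𝓝 (1 / sw - 0)) :=
        tendsto_const_nhds.sub tendsto_one_div_atTop_nhds_zero_nat
      rw [sub_zero] at h1
      refine tendsto_of_tendsto_of_tendsto_of_le_of_le' h1 tendsto_const_nhds ?_ ?_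
      · filter_upwards [eventually_ge_atTop 1] with N hN
        have hN' : (0 : ℝ) < N := by exact_mod_cast hN
        rw [sub_le_iff_le_add, ← add_div, div_le_div_iff₀ hswR hN', one_mul]
        have : N < sw * (N / sw + 1) := Nat.lt_mul_div_succ N (by omega)
        have h2 : (N : ℝ) < sw * ((N / sw : ℕ) + 1) := by exact_mod_cast this
        linarith
      · filter_upwards [eventually_ge_atTop 1] with N hN
        have hN' : (0 : ℝ) < N := by exact_mod_cast hN
        rw [div_le_div_iff₀ hN' hswR, one_mul]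
        have : N / sw * sw ≤ N := Nat.div_mul_le_self N sw
        exact_mod_cast this
    have ht4 := ht2.mul ht3
    have h5 : γ w * (1 / sw) = γ w / sw := by ring
    rw [h5] at ht4
    filter_upwards [ht4.eventually (lt_mem_nhds hwε), eventually_ge_atTop sw] with N hN1 hN2
    refine hN1.trans_le ?_
    have hN' : (0 : ℝ) < N := by
      have : 0 < N := by omega
      exact_mod_cast this
    have hm : (0 : ℝ) < (N / sw : ℕ) := by
      have : 0 < N / sw := Nat.div_pos hN2 (by omega)
      exact_mod_cast this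
    have h6 : LL q w (N / sw) g / (N / sw : ℕ) * (((N / sw : ℕ) : ℝ) / N) = LL q w (N / sw) g / N := by
      field_simp
    rw [h6]
    apply div_le_div_of_nonneg_right _ hN'.le
    exact LL_le_VV q h0 hB w N (N / sw) (Nat.div_mul_le_self N sw)
  -- upper bound
  have hupp : ∀ᶠ N : ℕ in atTop, VV q N 0 g / N < Γ + ε := by
    obtain ⟨K, hK⟩ := exists_nat_gt ((Γ * (Fintype.card I + 1) + 1) / (ε / 2) + 1)
    have hc0 : 0 ≤ Γ * (Fintype.card I + 1) + 1 := by positivity
    have hKpos : (0 : ℝ) < K := lt_of_le_of_lt (by positivity) hK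
    have hK1 : 1 ≤ K := by exact_mod_cast hKpos
    have hK2 : (Γ * (Fintype.card I + 1) + 1) / K < ε / 2 := by
      have h1 : (Γ * (Fintype.card I + 1) + 1) / (ε / 2) < K := by linarith
      rw [div_lt_iff₀ (by positivity)] at h1
      rw [div_lt_iff₀ hKpos]
      linarith
    have hfin : ∀ᶠ n : ℕ in atTop, ∀ w, good q K w → LL q w n g / n ≤ γ w + 1 := by
      have := (Filter.eventually_all_finite (good_finite q K)).2
        (fun w (hw : w ∈ {w : I → ℕ | good q K w}) =>
          (hγ w hw.2.1).eventually (ge_mem_nhds (show γ w < γ w + 1 by linarith)))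
      exact this
    have ht1 : Tendsto (fun N : ℕ => N / K + 1) atTop atTop :=
      (tendsto_add_atTop_nat 1).comp (Nat.tendsto_div_const_atTop (by omega))
    have ht3 : Tendsto (fun N : ℕ => (((N / K + 1 : ℕ) : ℝ) / N) *
        ((K + Fintype.card I + 1) * Γ + 1)) atTop (𝓝 ((1 / K) * ((K + Fintype.card I + 1) * Γ + 1))) := by
      refine Tendsto.mul_const _ ?_
      have h1 : Tendsto (fun N : ℕ => 1 / (K : ℝ) + 1 / N) atTop (𝓝 (1 / K + 0)) :=
        tendsto_const_nhds.add tendsto_one_div_atTop_nhds_zero_nat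
      rw [add_zero] at h1
      refine tendsto_of_tendsto_of_tendsto_of_le_of_le' tendsto_const_nhds h1 ?_ ?_
      · filter_upwards [eventually_ge_atTop 1] with N hN
        have hN' : (0 : ℝ) < N := by exact_mod_cast hN
        rw [div_le_div_iff₀ hKpos hN', one_mul]
        have : N < K * (N / K + 1) := Nat.lt_mul_div_succ N (by omega)
        have h2 : (N : ℝ) < K * ((N / K + 1 : ℕ) : ℝ) := by exact_mod_cast this
        linarith
      · filter_upwards [eventually_ge_atTop 1] with N hN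
        have hN' : (0 : ℝ) < N := by exact_mod_cast hN
        push_cast
        rw [add_div]
        have : ((N / K : ℕ) : ℝ) / N ≤ 1 / K := by
          rw [div_le_div_iff₀ hN' hKpos, one_mul]
          have : N / K * K ≤ N := Nat.div_mul_le_self N K
          exact_mod_cast this
        linarith
    have hlim : (1 / (K : ℝ)) * ((K + Fintype.card I + 1) * Γ + 1) < Γ + ε := by
      have : (1 / (K : ℝ)) * ((K + Fintype.card I + 1) * Γ + 1) =
          Γ + (Γ * (Fintype.card I + 1) + 1) / K := by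
        field_simp
        ring
      rw [this]
      linarith
    filter_upwards [ht1.eventually hfin, ht3.eventually (gt_mem_nhds hlim), eventually_ge_atTop 1]
      with N hN1 hN2 hN3
    refine lt_of_le_of_lt ?_ hN2
    have hN' : (0 : ℝ) < N := by exact_mod_cast hN3
    have hn' : (0 : ℝ) < ((N / K + 1 : ℕ) : ℝ) := by positivity
    have h7 : VV q N 0 g ≤ ((N / K + 1 : ℕ) : ℝ) * ((K + Fintype.card I + 1) * Γ + 1) := by
      refine VV_upper q h0 hB hq K N hK1 hN3 _ fun w hw => ?_
      have h8 := hN1 w hw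
      rw [div_le_iff₀ hn'] at h8
      refine h8.trans ?_
      rw [mul_comm]
      apply mul_le_mul_of_nonneg_left _ hn'.le
      have h9 := hΓw w ⟨hw.1, hw.2.1⟩
      have h10 : ((∑ i, w i : ℕ) : ℝ) ≤ K + Fintype.card I + 1 := by exact_mod_cast hw.2.2
      have h11 := mul_le_mul_of_nonneg_left h10 hΓ0
      linarith
    rw [div_mul_eq_mul_div]
    exact div_le_div_of_nonneg_right h7 hN'.le
  obtain ⟨N0, hN0⟩ := eventually_atTop.1 (hlow.and hupp)
  refine ⟨N0, fun n hn => ?_⟩
  rw [Real.dist_eq, abs_lt]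
  have := hN0 n hn
  constructor <;> linarith [this.1, this.2]

end words

/-! ### The random payoffs -/

section prob

variable {d : ℕ} {I : Type} [Fintype I] [DecidableEq I] [Nonempty I] (q : I → Fin d → ℤ)

/-- payoffs moved to `[0, 2B]` -/
noncomputable def cl (B : ℝ) (g : (Fin d → ℤ) → I → ℝ) : (Fin d → ℤ) → I → ℝ :=
  fun z i => max 0 (min (g z i + B) (2 * B))

lemma cl_nonneg (B : ℝ) (g : (Fin d → ℤ) → I → ℝ) (z : Fin d → ℤ) (i : I) : 0 ≤ cl B g z i :=
  le_max_left _ _

lemma cl_le {B : ℝ} (hB : 0 ≤ B) (g : (Fin d → ℤ) → I → ℝ) (z : Fin d → ℤ) (i : I) :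
    cl B g z i ≤ 2 * B := max_le (by linarith) (min_le_right _ _)

lemma cl_eq {B : ℝ} {g : (Fin d → ℤ) → I → ℝ} (hg : ∀ z i, |g z i| ≤ B) (z : Fin d → ℤ) (i : I) :
    cl B g z i = g z i + B := by
  have := abs_le.1 (hg z i)
  unfold cl
  rw [min_eq_left (by linarith), max_eq_right (by linarith)]

lemma meas_tot (B : ℝ) (z : Fin d → ℤ) (l : List I) :
    Measurable fun η : (Fin d → ℤ) → I → ℝ => tot q (cl B η) z l := by
  induction l generalizing z with
  | nil => exact measurable_const
  | cons i l ih =>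
    refine Measurable.add ?_ (ih _)
    have h : Measurable fun η : (Fin d → ℤ) → I → ℝ => η z i :=
      (measurable_pi_apply i).comp (measurable_pi_apply z)
    unfold cl
    exact measurable_const.max ((h.add_const B).min measurable_const)

lemma meas_LL (B : ℝ) (w : I → ℕ) (n : ℕ) :
    Measurable fun η : (Fin d → ℤ) → I → ℝ => LL q w n (cl B η) := by
  unfold LL
  exact Measurable.iSup fun l => meas_tot q B 0 l.1

/-- shift -/
def shf (x : Fin d → ℤ) : ((Fin d → ℤ) → I → ℝ) → (Fin d → ℤ) → I → ℝ :=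
  Pool.Agent.Y560.BE.cm (Equiv.addRight x)

lemma addRight_iter (x : Fin d → ℤ) (n : ℕ) (i : Fin d → ℤ) :
    (Equiv.addRight x)^[n] i = i + n • x := by
  induction n generalizing i with
  | zero => simp
  | succ n ih =>
    rw [Function.iterate_succ_apply', ih]
    simp only [Equiv.coe_addRight]
    rw [succ_nsmul]
    abel

lemma shf_iter (x : Fin d → ℤ) (n : ℕ) :
    (shf x)^[n] = (shf (n • x) : ((Fin d → ℤ) → I → ℝ) → (Fin d → ℤ) → I → ℝ) := by
  funext η
  unfold shf
  rw [Pool.Agent.Y560.BE.cm_iter]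
  funext z
  rw [addRight_iter]
  rfl

lemma shf_tr (x : Fin d → ℤ) (B : ℝ) (η : (Fin d → ℤ) → I → ℝ) : cl B (shf x η) = tr x (cl B η) := rfl

variable (ν : Measure (I → ℝ)) [IsProbabilityMeasure ν]

lemma shf_ergodic (x : Fin d → ℤ) (hx : x ≠ 0) :
    Ergodic (shf x : ((Fin d → ℤ) → I → ℝ) → _) (Measure.infinitePi fun _ : Fin d → ℤ => ν) := by
  classical
  refine Pool.Agent.Y560.BE.erg_cm ν (Equiv.addRight x) fun s => ?_
  refine Pool.Agent.Y560.BE.move_off (Equiv.addRight x) (fun i n h => ?_) s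
  rw [addRight_iter] at h
  have h2 : (n + 1) • x = 0 := by simpa using h
  rcases smul_eq_zero.1 h2 with h3 | h3
  · omega
  · exact hx h3

lemma conv_w {B : ℝ} (hB : 0 ≤ B) (w : I → ℕ) (hw : dw q w ≠ 0) :
    ∃ γ : ℝ, ∀ᵐ η ∂(Measure.infinitePi fun _ : Fin d → ℤ => ν),
      Tendsto (fun n : ℕ => LL q w n (cl B η) / n) atTop (𝓝 γ) := by
  refine Pool.Agent.R975.King.kingman (T := shf (dw q w)) (L := fun n η => LL q w n (cl B η))
    (B := 2 * B * (∑ i, w i)) (shf_ergodic ν _ hw) ?_ (fun n => meas_LL q B w n) ?_ ?_ ?_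
  · intro k hk
    rw [shf_iter]
    refine shf_ergodic ν _ fun h => ?_
    rcases smul_eq_zero.1 h with h3 | h3
    · omega
    · exact hw h3
  · intro n η
    exact Real.iSup_nonneg fun l => (tot_bd q (cl_nonneg B η) (cl_le hB η) 0 l.1).1
  · intro n η
    exact ciSup_le fun l => LL_bdd q (cl_nonneg B η) (cl_le hB η) w n l
  · intro k l η
    rw [shf_iter, shf_tr]
    exact LL_super q (cl_nonneg B η) (cl_le hB η) w k l

lemma conv_all {B : ℝ} (hB : 0 ≤ B) (hq : ∃ i, q i ≠ 0) :
    ∃ c : ℝ, ∀ᵐ η ∂(Measure.infinitePi fun _ : Fin d → ℤ => ν), ∀ z,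
      Tendsto (fun n : ℕ => VV q n z (cl B η) / n) atTop (𝓝 c) := by
  classical
  have h1 : ∀ w : I → ℕ, ∃ γ : ℝ, dw q w ≠ 0 → ∀ᵐ η ∂(Measure.infinitePi fun _ : Fin d → ℤ => ν),
      Tendsto (fun n : ℕ => LL q w n (cl B η) / n) atTop (𝓝 γ) := by
    intro w
    by_cases hw : dw q w = 0
    · exact ⟨0, fun h => absurd hw h⟩
    · obtain ⟨γ, hγ⟩ := conv_w q ν hB w hw
      exact ⟨γ, fun _ => hγ⟩
  choose γ hγ using h1
  refine ⟨sSup ((fun w : I → ℕ => γ w / (∑ i, w i : ℕ)) '' {w | (∀ i, 1 ≤ w i) ∧ dw q w ≠ 0}), ?_⟩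
  rw [ae_all_iff]
  intro z
  have h2 : ∀ᵐ η ∂(Measure.infinitePi fun _ : Fin d → ℤ => ν), ∀ w, dw q w ≠ 0 →
      Tendsto (fun n : ℕ => LL q w n (cl B η) / n) atTop (𝓝 (γ w)) := by
    rw [ae_all_iff]
    intro w
    by_cases hw : dw q w = 0
    · exact Eventually.of_forall fun η h => absurd hw h
    · filter_upwards [hγ w hw] with η hη _
      exact hη
  have h3 : ∀ᵐ η ∂(Measure.infinitePi fun _ : Fin d → ℤ => ν),
      Tendsto (fun n : ℕ => VV q n 0 (cl B η) / n) atTop
      (𝓝 (sSup ((fun w : I → ℕ => γ w / (∑ i, w i : ℕ)) '' {w | (∀ i, 1 ≤ w i) ∧ dw q w ≠ 0}))) := by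
    filter_upwards [h2] with η hη
    exact VV_tendsto q (cl_nonneg B η) (cl_le hB η) hq γ hη
  have hmp : MeasurePreserving (shf z : ((Fin d → ℤ) → I → ℝ) → _)
      (Measure.infinitePi fun _ : Fin d → ℤ => ν) (Measure.infinitePi fun _ : Fin d → ℤ => ν) :=
    Pool.Agent.Y560.BE.mp_cm ν (Equiv.addRight z)
  filter_upwards [hmp.quasiMeasurePreserving.ae h3] with η hη
  refine hη.congr fun n => ?_
  congr 1
  unfold VV
  congr 1
  funext l
  rw [shf_tr, tot_tr, zero_add]

end prob

/-! ### From words to sequences of actions -/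

section values

variable {d : ℕ} {I : Type} (q : I → Fin d → ℤ)

lemma sum_tot (g : (Fin d → ℤ) → I → ℝ) (z : Fin d → ℤ) (n : ℕ) (a : ℕ → I) :
    ∑ m ∈ Finset.range n, g (state q z a m) (a m) = tot q g z (List.ofFn fun k : Fin n => a k) := by
  induction n generalizing z a with
  | zero => simp [tot]
  | succ n ih =>
    rw [Finset.sum_range_succ', List.ofFn_succ]
    have h1 := ih (z + q (a 0)) (fun k => a (k + 1))
    have h2 : ∀ m, state q z a (m + 1) = state q (z + q (a 0)) (fun k => a (k + 1)) m := by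
      intro m
      unfold state
      rw [Finset.sum_range_succ']
      abel
    simp_rw [h2]
    show _ = g z (a 0) + tot q g (z + q (a 0)) (List.ofFn fun k : Fin n => a (k + 1))
    rw [← h1]
    have h3 : state q z a 0 = z := by simp [state]
    rw [h3]
    ring

variable [Fintype I] [DecidableEq I] [Nonempty I]

lemma vmax_eq {g : (Fin d → ℤ) → I → ℝ} {B : ℝ} (h0 : ∀ z i, 0 ≤ g z i) (hB : ∀ z i, g z i ≤ B)
    (n : ℕ) (z : Fin d → ℤ) : vmax g q n z = VV q n z g / n := by
  have hle : ∀ a : ℕ → I, avg g q z n a ≤ VV q n z g / n := by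
    intro a
    unfold avg
    rw [sum_tot]
    apply div_le_div_of_nonneg_right _ (Nat.cast_nonneg n)
    exact le_ciSup (VV_bddAbove q h0 hB n z)
      (⟨List.ofFn fun k : Fin n => a k, by simp⟩ : {l : List I // l.length = n})
  have hbdd : BddAbove (Set.range fun a : ℕ → I => avg g q z n a) :=
    ⟨_, by rintro _ ⟨a, rfl⟩; exact hle a⟩
  have hnn : 0 ≤ vmax g q n z := by
    refine Real.iSup_nonneg fun a => ?_
    unfold avg
    rw [sum_tot]
    exact div_nonneg (tot_bd q h0 hB z _).1 (Nat.cast_nonneg n)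
  apply le_antisymm (ciSup_le hle)
  rcases Nat.eq_zero_or_pos n with rfl | hn
  · simp only [Nat.cast_zero, div_zero]
    exact hnn
  · have hn' : (0 : ℝ) < n := by exact_mod_cast hn
    rw [div_le_iff₀ hn']
    have : Nonempty {l : List I // l.length = n} :=
      ⟨⟨List.replicate n (Classical.arbitrary I), by simp⟩⟩
    refine ciSup_le fun l => ?_
    obtain ⟨l, hl⟩ := l
    have h1 := le_ciSup hbdd (fun k => l.getD k (Classical.arbitrary I))
    have h2 : avg g q z n (fun k => l.getD k (Classical.arbitrary I)) = tot q g z l / n := by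
      unfold avg
      rw [sum_tot]
      congr 2
      apply List.ext_getElem
      · simp [hl]
      · intro k h3 h4
        simp [List.getElem_ofFn, h4]
    rw [h2] at h1
    rw [div_le_iff₀ hn'] at h1
    exact h1

lemma avg_bd {g : (Fin d → ℤ) → I → ℝ} {B : ℝ} (hB0 : 0 ≤ B) (hg : ∀ z i, |g z i| ≤ B) (z : Fin d → ℤ) (n : ℕ)
    (a : ℕ → I) : |avg g q z n a| ≤ B := by
  unfold avg
  rw [abs_div, Nat.abs_cast]
  rcases Nat.eq_zero_or_pos n with rfl | hn
  · simpa using hB0
  · have hn' : (0 : ℝ) < n := by exact_mod_cast hn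
    rw [div_le_iff₀ hn']
    refine (Finset.abs_sum_le_sum_abs _ _).trans ?_
    refine (Finset.sum_le_card_nsmul _ _ B fun m _ => hg _ _).trans ?_
    simp [mul_comm]

lemma vmax_cl {g : (Fin d → ℤ) → I → ℝ} {B : ℝ} (hB0 : 0 ≤ B) (hg : ∀ z i, |g z i| ≤ B) (n : ℕ) (hn : 1 ≤ n)
    (z : Fin d → ℤ) : vmax g q n z = vmax (cl B g) q n z - B := by
  have h1 : ∀ a : ℕ → I, avg (cl B g) q z n a = avg g q z n a + B := by
    intro a
    unfold avg
    have hn' : (0 : ℝ) < n := by exact_mod_cast hn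
    simp_rw [cl_eq hg]
    rw [Finset.sum_add_distrib, add_div]
    congr 1
    simp
    field_simp
  unfold vmax
  simp_rw [h1]
  rw [← ciSup_add ⟨B, by rintro _ ⟨a, rfl⟩; exact (abs_le.1 (avg_bd q hB0 hg z n a)).2⟩]
  ring

lemma vmin_neg (g : (Fin d → ℤ) → I → ℝ) (n : ℕ) (z : Fin d → ℤ) :
    vmin g q n z = -vmax (fun z i => -g z i) q n z := by
  unfold vmin vmax
  have h1 : ∀ a : ℕ → I, avg (fun z i => -g z i) q z n a = -avg g q z n a := by
    intro a
    unfold avg
    rw [Finset.sum_neg_distrib, neg_div]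
  simp_rw [h1]
  unfold iInf iSup
  rw [Real.sInf_def]
  congr 2
  ext x
  simp only [Set.mem_neg, Set.mem_range]
  constructor
  · rintro ⟨a, ha⟩
    exact ⟨a, by rw [ha]; ring⟩
  · rintro ⟨a, ha⟩
    exact ⟨a, by rw [← ha]; ring⟩

end values

/-- i.i.d. payoffs: the random vectors `(g ω z i)_i`, `z ∈ ℤ^d`, are independent and identically
distributed, and the payoffs are uniformly bounded. -/
structure IIDPayoffs {d : ℕ} {I Ω : Type*} [MeasurableSpace Ω] (P : Measure Ω)
    (g : Ω → (Fin d → ℤ) → I → ℝ) : Prop where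
  meas : ∀ z i, Measurable fun ω => g ω z i
  bdd : ∃ B : ℝ, ∀ ω z i, |g ω z i| ≤ B
  indep : iIndepFun (fun (z : Fin d → ℤ) ω => g ω z) P
  ident : ∀ z, IdentDistrib (fun ω => g ω z) (fun ω => g ω 0) P P

lemma main {d : ℕ} {I : Type} [Fintype I] [Nonempty I] {Ω : Type*} [MeasurableSpace Ω] (P : Measure Ω)
    [IsProbabilityMeasure P] (g : Ω → (Fin d → ℤ) → I → ℝ) (hg : IIDPayoffs P g) (q : I → Fin d → ℤ)
    (hq : ∃ i, q i ≠ 0) :
    ∃ c : ℝ, ∀ᵐ ω ∂P, ∀ z, Tendsto (fun n => vmax (g ω) q n z) atTop (𝓝 c) := by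
  classical
  obtain ⟨B', hB'⟩ := hg.bdd
  set B := |B'| with hBdef
  have hB0 : 0 ≤ B := abs_nonneg _
  have hB : ∀ ω z i, |g ω z i| ≤ B := fun ω z i => (hB' ω z i).trans (le_abs_self _)
  have hmz : ∀ z, Measurable fun ω => g ω z := fun z => measurable_pi_lambda _ fun i => hg.meas z i
  have hm : Measurable g := measurable_pi_lambda _ fun z => hmz z
  set ν : Measure (I → ℝ) := P.map fun ω => g ω 0 with hν
  have : IsProbabilityMeasure ν := Measure.isProbabilityMeasure_map (hmz 0).aemeasurable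
  have hlaw : P.map g = Measure.infinitePi fun _ : Fin d → ℤ => ν := by
    have h1 := (iIndepFun_iff_map_fun_eq_infinitePi_map (fun z => hmz z)).1 hg.indep
    rw [show g = fun ω z => g ω z from rfl, h1]
    congr 1
    funext z
    exact (hg.ident z).map_eq
  obtain ⟨c, hc⟩ := conv_all q ν hB0 hq
  rw [← hlaw] at hc
  have hc' := ae_of_ae_map hm.aemeasurable hc
  refine ⟨c - B, ?_⟩
  filter_upwards [hc'] with ω hω z
  have h2 := (hω z).sub_const B
  refine h2.congr' ?_
  filter_upwards [eventually_ge_atTop 1] with n hn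
  rw [vmax_cl q hB0 (hB ω) n hn z, vmax_eq q (cl_nonneg B (g ω)) (cl_le hB0 (g ω))]

lemma trivial_case {d : ℕ} {I : Type} [Fintype I] [Nonempty I] (g : (Fin d → ℤ) → I → ℝ)
    (q : I → Fin d → ℤ) (hq : ∀ i, q i = 0) (z : Fin d → ℤ) :
    Tendsto (fun n => vmax g q n z) atTop (𝓝 (⨆ i, g z i)) := by
  have hfin : BddAbove (Set.range fun i => g z i) := (Set.finite_range _).bddAbove
  refine Tendsto.congr' ?_ tendsto_const_nhds
  filter_upwards [eventually_ge_atTop 1] with n hn
  have hn' : (0 : ℝ) < n := by exact_mod_cast hn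
  have h1 : ∀ a : ℕ → I, avg g q z n a = (∑ m ∈ Finset.range n, g z (a m)) / n := by
    intro a
    unfold avg state
    simp [hq]
  have h2 : ∀ a : ℕ → I, avg g q z n a ≤ ⨆ i, g z i := by
    intro a
    rw [h1, div_le_iff₀ hn']
    refine (Finset.sum_le_card_nsmul _ _ (⨆ i, g z i) fun m _ => le_ciSup hfin (a m)).trans ?_
    simp [mul_comm]
  apply le_antisymm
  · refine ciSup_le fun i => ?_
    have h3 := le_ciSup (f := fun a : ℕ → I => avg g q z n a)
      ⟨_, by rintro _ ⟨a, rfl⟩; exact h2 a⟩ (fun _ => i)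
    have h4 : avg g q z n (fun _ => i) = g z i := by
      rw [h1]
      simp
      field_simp
    rw [h4] at h3
    exact h3
  · exact ciSup_le h2

/-- **Theorem.** Every one-player percolation game on `ℤ^d` with i.i.d. payoffs has a limit value:
for every finite set of actions `I` and every transition map `q : I → ℤ^d`, with no orientation
assumption, the `n`-stage values of the game of a maximiser and of the game of a minimiser converge
almost surely, from every state. If the state can move at all (`q ≠ 0`), then the two limits are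
constants, which do not depend on the initial state. -/
theorem result {d : ℕ} {I : Type} [Fintype I] [Nonempty I] {Ω : Type*} [MeasurableSpace Ω]
    (P : Measure Ω) [IsProbabilityMeasure P] (g : Ω → (Fin d → ℤ) → I → ℝ) (hg : IIDPayoffs P g)
    (q : I → Fin d → ℤ) :
    (∀ z, ∀ᵐ ω ∂P, ∃ c : ℝ, Tendsto (fun n => vmax (g ω) q n z) atTop (𝓝 c)) ∧
    (∀ z, ∀ᵐ ω ∂P, ∃ c : ℝ, Tendsto (fun n => vmin (g ω) q n z) atTop (𝓝 c)) ∧
    ((∃ i, q i ≠ 0) → ∃ c c' : ℝ, ∀ᵐ ω ∂P, ∀ z, Tendsto (fun n => vmax (g ω) q n z) atTop (𝓝 c) ∧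
      Tendsto (fun n => vmin (g ω) q n z) atTop (𝓝 c')) := by
  classical
  have hg' : IIDPayoffs P (fun ω z i => -g ω z i) := by
    refine ⟨fun z i => (hg.meas z i).neg, ?_, ?_, ?_⟩
    · obtain ⟨B, hB⟩ := hg.bdd
      exact ⟨B, fun ω z i => by rw [abs_neg]; exact hB ω z i⟩
    · exact hg.indep.comp (fun _ (x : I → ℝ) i => -x i)
        (fun _ => measurable_pi_lambda _ fun i => (measurable_pi_apply i).neg)
    · intro z
      exact (hg.ident z).comp (u := fun (x : I → ℝ) i => -x i)
        (measurable_pi_lambda _ fun i => (measurable_pi_apply i).neg)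
  have h3 : (∃ i, q i ≠ 0) → ∃ c c' : ℝ, ∀ᵐ ω ∂P, ∀ z,
      Tendsto (fun n => vmax (g ω) q n z) atTop (𝓝 c) ∧
      Tendsto (fun n => vmin (g ω) q n z) atTop (𝓝 c') := by
    intro hq
    obtain ⟨c, hc⟩ := main P g hg q hq
    obtain ⟨c', hc'⟩ := main P _ hg' q hq
    refine ⟨c, -c', ?_⟩
    filter_upwards [hc, hc'] with ω h1 h2 z
    refine ⟨h1 z, ?_⟩
    simp_rw [vmin_neg]
    exact (h2 z).neg
  refine ⟨?_, ?_, h3⟩
  · intro z
    by_cases hq : ∃ i, q i ≠ 0
    · obtain ⟨c, c', hc⟩ := h3 hq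
      filter_upwards [hc] with ω hω
      exact ⟨c, (hω z).1⟩
    · push Not at hq
      exact Eventually.of_forall fun ω => ⟨_, trivial_case (g ω) q hq z⟩
  · intro z
    by_cases hq : ∃ i, q i ≠ 0
    · obtain ⟨c, c', hc⟩ := h3 hq
      filter_upwards [hc] with ω hω
      exact ⟨c', (hω z).2⟩
    · push Not at hq
      refine Eventually.of_forall fun ω => ⟨-(⨆ i, -g ω z i), ?_⟩
      simp_rw [vmin_neg]
      exact (trivial_case (fun z i => -g ω z i) q hq z).neg

end Pool.Agent.Results.MP_5b044e_pr.LimitValue
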